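import Pool.Agent.H55.CU.Targets

/-!
# VMS: masses between cells (board `cou_modules`)
-/

set_option autoImplicit false

open Pool.Agent.H95 Pool.Agent.H95.Cop Pool.Agent.H96.Cop Pool.Agent.H55.CU

namespace Pool.Agent.H67.CU

private theorem sum_cellsR (k n : ℕ) (f : ℕ → ℝ) :
    ∑ s ∈ Finset.range (n * k), f s =
      ∑ a ∈ Finset.range n, ∑ r ∈ Finset.range k, f (a * k + r) := by
  induction n with
  | zero => simp
  | succ n ih =>
    rw [Finset.sum_range_succ, ← ih, add_mul, one_mul, Finset.sum_range_add]

/-- the sum over the first cell -/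
private theorem cell_sum (f : ℕ → ℝ) (hf : ∀ s, 0 ≤ f s) (k a r : ℕ) (ha : 1 ≤ a)
    (hr : r < k) : ∑ e ∈ Finset.range k, f (a * k + r - e) ≤
      ∑ s ∈ (Finset.range ((a + 1) * k)).filter (fun s => r < s), f s := by
  have hk : k ≤ a * k := Nat.le_mul_of_pos_left k (by omega)
  have h1 : ∑ e ∈ Finset.range k, f (a * k + r - e) =
      ∑ s ∈ (Finset.range k).image (fun e => a * k + r - e), f s := by
    rw [Finset.sum_image]
    intro x hx y hy hxy
    rw [Finset.mem_coe, Finset.mem_range] at hx hy
    simp only at hxy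
    omega
  rw [h1]
  refine Finset.sum_le_sum_of_subset_of_nonneg ?_ (fun s _ _ => hf s)
  intro s hs
  rw [Finset.mem_image] at hs
  obtain ⟨e, he, rfl⟩ := hs
  rw [Finset.mem_range] at he
  rw [Finset.mem_filter, Finset.mem_range, add_mul, one_mul]
  omega

/-- every value `s` is taken at most `s` times -/
private theorem pairs_sum (f : ℕ → ℝ) (hf : ∀ s, 0 ≤ f s) (k a : ℕ) (ha : 1 ≤ a) :
    ∑ e ∈ Finset.range k, ∑ r ∈ Finset.range k, f (a * k + r - e) ≤
      ∑ s ∈ Finset.range ((a + 1) * k), (s : ℝ) * f s := by
  rw [Finset.sum_comm]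
  calc ∑ r ∈ Finset.range k, ∑ e ∈ Finset.range k, f (a * k + r - e)
      ≤ ∑ r ∈ Finset.range k, ∑ s ∈ (Finset.range ((a + 1) * k)).filter (fun s => r < s), f s :=
        Finset.sum_le_sum fun r hr => cell_sum f hf k a r ha (Finset.mem_range.1 hr)
    _ = ∑ r ∈ Finset.range k, ∑ s ∈ Finset.range ((a + 1) * k), (if r < s then f s else 0) := by
        refine Finset.sum_congr rfl fun r _ => ?_
        rw [Finset.sum_filter]
    _ = ∑ s ∈ Finset.range ((a + 1) * k), ∑ r ∈ Finset.range k, (if r < s then f s else 0) :=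
        Finset.sum_comm
    _ ≤ ∑ s ∈ Finset.range ((a + 1) * k), (s : ℝ) * f s := by
        refine Finset.sum_le_sum fun s _ => ?_
        rw [← Finset.sum_filter, Finset.sum_const, nsmul_eq_mul]
        refine mul_le_mul_of_nonneg_right ?_ (hf s)
        have h1 : ((Finset.range k).filter (fun r => r < s)).card ≤ s := by
          have h2 : (Finset.range k).filter (fun r => r < s) ⊆ Finset.range s := by
            intro r hr
            rw [Finset.mem_filter] at hr
            exact Finset.mem_range.2 hr.2
          exact (Finset.card_le_card h2).trans (by rw [Finset.card_range])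
        exact_mod_cast h1

theorem pf_VMS (hUMS : T_UMS) : T_VMS := by
  intro κ k hκ hk
  have huu : ∀ s, 0 ≤ uu κ s := fun s => uu_nonneg κ hκ s
  have hkR : (1 : ℝ) ≤ k := by exact_mod_cast hk
  have hk0 : (0 : ℝ) < k := by linarith
  refine ⟨?_, ?_⟩
  · intro Q hQ hm n
    have h1 := (hUMS κ (fun _ => 1) Q 0 hκ (fun _ => zero_le_one) le_rfl
      (fun _ _ => by norm_num) hQ (fun N => by simpa using hm N)).1
    unfold VR
    rw [Finset.sum_comm]
    calc ∑ e ∈ Finset.range k, ∑ a ∈ Finset.range n, ∑ r ∈ Finset.range k,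
          (if e ≤ a * k + r then uu κ (a * k + r - e) else 0)
        ≤ ∑ e ∈ Finset.range k, 1 / Q := by
          refine Finset.sum_le_sum fun e _ => ?_
          rw [← sum_cellsR k n (fun s => if e ≤ s then uu κ (s - e) else 0)]
          refine le_trans ?_ (h1 (n * k))
          rw [← Finset.sum_filter]
          have h4 : ∑ s ∈ (Finset.range (n * k)).filter (fun s => e ≤ s), uu κ (s - e) =
              ∑ t ∈ ((Finset.range (n * k)).filter (fun s => e ≤ s)).image (fun s => s - e),
              uu κ t := by
            rw [Finset.sum_image]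
            intro x hx y hy hxy
            simp only [Finset.coe_filter, Finset.mem_range, Set.mem_setOf_eq] at hx hy
            simp only at hxy
            omega
          rw [h4]
          simp only [mul_one]
          refine Finset.sum_le_sum_of_subset_of_nonneg ?_ (fun s _ _ => huu s)
          intro t ht
          rw [Finset.mem_image] at ht
          obtain ⟨s, hs, rfl⟩ := ht
          rw [Finset.mem_filter, Finset.mem_range] at hs
          rw [Finset.mem_range]
          omega
      _ = k / Q := by
          rw [Finset.sum_const, Finset.card_range, nsmul_eq_mul]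
          ring
  · intro Q m1 hQ h1 h2 a ha
    have hU := (hUMS κ (fun s => Real.exp (s / k)) Q m1 hκ (fun _ => (Real.exp_pos _).le)
      (by simp) (fun m n => by
        rw [← Real.exp_add]
        push_cast
        rw [add_div]) hQ (fun N => by simpa using h1 N)).2 (fun N => by simpa using h2 N)
    have hf : ∀ s : ℕ, 0 ≤ uu κ s * Real.exp (s / k) :=
      fun s => mul_nonneg (huu s) (Real.exp_pos _).le
    have hp := pairs_sum (fun s => uu κ s * Real.exp (s / k)) hf k a ha
    have hka : k ≤ a * k := Nat.le_mul_of_pos_left k (by omega)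
    have h3 : VR κ k a ≤ 3 * Real.exp (-(a : ℝ)) *
        ∑ e ∈ Finset.range k, ∑ r ∈ Finset.range k,
          uu κ (a * k + r - e) * Real.exp (((a * k + r - e : ℕ) : ℝ) / k) := by
      unfold VR
      rw [Finset.mul_sum]
      refine Finset.sum_le_sum fun e he => ?_
      rw [Finset.mul_sum]
      refine Finset.sum_le_sum fun r _ => ?_
      rw [Finset.mem_range] at he
      rw [if_pos (by omega)]
      have h4 : 1 ≤ 3 * Real.exp (-(a : ℝ)) * Real.exp (((a * k + r - e : ℕ) : ℝ) / k) := by
        have h5 : (a : ℝ) - 1 ≤ ((a * k + r - e : ℕ) : ℝ) / k := by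
          rw [le_div_iff₀ hk0]
          have h6 : a * k ≤ (a * k + r - e) + k := by omega
          have h7 : ((a * k : ℕ) : ℝ) ≤ (((a * k + r - e) + k : ℕ) : ℝ) := by exact_mod_cast h6
          rw [Nat.cast_add (a * k + r - e) k] at h7
          push_cast at h7 ⊢
          linarith
        have h8 : Real.exp ((a : ℝ) - 1) ≤ Real.exp (((a * k + r - e : ℕ) : ℝ) / k) :=
          Real.exp_le_exp.2 h5
        have h9 : Real.exp 1 ≤ 3 := by
          have := Real.exp_one_lt_d9
          linarith
        calc (1 : ℝ) = Real.exp 1 * Real.exp (-(a : ℝ)) * Real.exp ((a : ℝ) - 1) := by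
              rw [← Real.exp_add, ← Real.exp_add]
              ring_nf
              simp
          _ ≤ 3 * Real.exp (-(a : ℝ)) * Real.exp (((a * k + r - e : ℕ) : ℝ) / k) := by
              gcongr
      calc uu κ (a * k + r - e) = uu κ (a * k + r - e) * 1 := by ring
        _ ≤ uu κ (a * k + r - e) *
            (3 * Real.exp (-(a : ℝ)) * Real.exp (((a * k + r - e : ℕ) : ℝ) / k)) :=
            mul_le_mul_of_nonneg_left h4 (huu _)
        _ = _ := by ring
    have h10 : 0 ≤ 3 * Real.exp (-(a : ℝ)) := by positivity
    calc VR κ k a ≤ _ := h3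
      _ ≤ 3 * Real.exp (-(a : ℝ)) * (m1 / Q ^ 2) :=
          mul_le_mul_of_nonneg_left (hp.trans (hU _)) h10
      _ = 3 * m1 / Q ^ 2 * Real.exp (-(a : ℝ)) := by ring

end Pool.Agent.H67.CU
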